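import Pool.Agent.Helper5.ST.GoalsB
import Pool.Agent.Helper5.GapPerfect
import Pool.Agent.Helper5.GapKron
import Pool.Agent.Helper5.ZasClog

/-! Packet STRUCT for MP_f1caa3_al.  helper63. -/

namespace Pool.Agent.Helper63.Gap

open Pool.Agent.Helper5.Gap Pool.Agent.Helper5.Zas Pool.Agent.Helper5.ST

universe u

/-- The single-scale structure theorem with an explicit derived length. -/
theorem struct : Pool.Agent.Helper5.ST.SStruct.{u} := by
  intro G _ X hX hXt K hK hg
  have kron := kronStatement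
  have zas := Pool.Agent.Helper5.Zas.irrBound_log7
  have hI1 : K ≤ 2 ^ Nat.clog 2 K := Nat.le_pow_clog (by norm_num) K
  have hI2 : 2 ^ Nat.clog 2 K ≤ 2 * K := by
    rcases Nat.lt_or_ge 1 K with h | h
    · have h1 := Nat.pow_pred_clog_lt_self (b := 2) (by norm_num) h
      have h2 : 0 < Nat.clog 2 K := Nat.clog_pos (by norm_num) h
      have h3 : Nat.clog 2 K = (Nat.clog 2 K).pred + 1 := (Nat.succ_pred_eq_of_pos h2).symm
      rw [h3, pow_succ]
      omega
    · have : K = 1 := le_antisymm h hK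
      subst this
      simp
  set I := Nat.clog 2 K with hI
  set k := 7 * Nat.log 2 K + 18 with hk
  obtain ⟨c, hc⟩ : ∃ c : ℕ, c = 4 ^ 18 := ⟨_, rfl⟩
  have hc1 : 1 ≤ c := by rw [hc]; norm_num
  rw [← hc] at hg
  have h4I : 4 ^ (k + I) ≤ 4 * c * K ^ 16 := by
    have h1 : (4 : ℕ) ^ I = (2 ^ I) ^ 2 := by rw [← pow_mul, mul_comm, pow_mul]; norm_num
    have h2 : (4 : ℕ) ^ k = (2 ^ (Nat.log 2 K)) ^ 14 * c := by
      rw [hk, pow_add, ← hc, ← pow_mul, show (4 : ℕ) = 2 ^ 2 by norm_num, ← pow_mul]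
      congr 2
      ring_nf
    rw [pow_add, h2, h1]
    calc (2 ^ (Nat.log 2 K)) ^ 14 * c * (2 ^ I) ^ 2 ≤ K ^ 14 * c * (2 * K) ^ 2 := by
          gcongr
          exact Nat.pow_log_le_self 2 (by omega)
      _ = 4 * c * K ^ 16 := by ring
  have hL : 4 ^ (k + I) * (K + 1) ≤ 8 * c * K ^ 17 := by
    calc 4 ^ (k + I) * (K + 1) ≤ 4 * c * K ^ 16 * (2 * K) := Nat.mul_le_mul h4I (by omega)
      _ = 8 * c * K ^ 17 := by ring
  have hR1 : K * ((3 * (4 ^ (k + I) * (K + 1)) + 2 * K) * 2 ^ I + 2 * K) ≤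
      136 * c * K ^ 20 := by
    calc K * ((3 * (4 ^ (k + I) * (K + 1)) + 2 * K) * 2 ^ I + 2 * K)
        ≤ K * ((3 * (8 * c * K ^ 17) + 2 * K) * (2 * K) + 2 * K) := by gcongr
      _ = 48 * c * K ^ 19 + 4 * 1 * K ^ 3 + 2 * 1 * K ^ 2 := by ring
      _ ≤ 48 * c * K ^ 20 + 4 * c * K ^ 20 + 2 * c * K ^ 20 := by
        gcongr <;> first | exact hK | norm_num
      _ = 54 * (c * K ^ 20) := by ring
      _ ≤ 136 * (c * K ^ 20) := by omega
      _ = 136 * c * K ^ 20 := by ring
  have hR2 : K * (4 ^ (k + I) * (K + 1) + 16 * K ^ 2 * (4 ^ (k + I) * (K + 1))) ≤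
      136 * c * K ^ 20 := by
    calc K * (4 ^ (k + I) * (K + 1) + 16 * K ^ 2 * (4 ^ (k + I) * (K + 1)))
        ≤ K * (8 * c * K ^ 17 + 16 * K ^ 2 * (8 * c * K ^ 17)) := by gcongr
      _ = 8 * c * K ^ 18 + 128 * c * K ^ 20 := by ring
      _ ≤ 8 * c * K ^ 20 + 128 * c * K ^ 20 := by
        gcongr <;> first | exact hK | norm_num
      _ = 136 * c * K ^ 20 := by ring
  have hR3 : K * (4 ^ (k + (I + 1)) * (K + 1)) ≤ 136 * c * K ^ 20 := by
    calc K * (4 ^ (k + (I + 1)) * (K + 1)) = 4 * K * (4 ^ (k + I) * (K + 1)) := by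
          rw [← Nat.add_assoc, pow_succ]; ring
      _ ≤ 4 * K * (8 * c * K ^ 17) := by gcongr
      _ = 32 * c * K ^ 18 := by ring
      _ ≤ 136 * c * K ^ 20 := by
        gcongr <;> first | exact hK | norm_num
  -- the three facts for `r₀`
  obtain ⟨r₀, hr⟩ : ∃ r₀, r₀ = k + (I + 1) := ⟨_, rfl⟩
  have key : (derivedSeries G r₀).FG ∧ derivedSeries G (r₀ + 1) = derivedSeries G r₀ ∧
      VirtNilpotent (G ⧸ derivedSeries G r₀) := by
    rw [← hr] at hR3
    set P := derivedSeries G r₀ with hP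
    have hle : P ≤ derivedSeries G (r₀ + 1) := by
      set N := derivedSeries G (r₀ + 1) with hN
      have hsol : Group.IsSolvable (G ⧸ N) := by
        refine ⟨r₀ + 1, ?_⟩
        rw [← map_derivedSeries_eq (QuotientGroup.mk'_surjective N) (r₀ + 1),
          Subgroup.map_eq_bot_iff, QuotientGroup.ker_mk']
      have h1 := derived_soluble (hX.image (QuotientGroup.mk' N)) (closure_quotient N hXt)
        (lt_of_le_of_lt (growth_quotient N hX _) hg) hI1 (zas K) hR1
      rw [← hk, ← hr, ← map_derivedSeries_eq (QuotientGroup.mk'_surjective N) r₀,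
        Subgroup.map_eq_bot_iff, QuotientGroup.ker_mk'] at h1
      exact h1
    refine ⟨?_, ?_, ?_⟩
    · exact (gen_derivedSeries hX hXt hg r₀ hR3 r₀ le_rfl).fg hX
    · exact le_antisymm (derivedSeries_antitone G (Nat.le_succ r₀)) hle
    · refine exists_nilpotent kron (hX.image (QuotientGroup.mk' P))
        (lt_of_le_of_lt (growth_quotient P hX _) hg) hR2 r₀ ?_ ?_
      · rw [← map_derivedSeries_eq (QuotientGroup.mk'_surjective P) r₀,
          Subgroup.map_eq_bot_iff, QuotientGroup.ker_mk']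
      · intro i hi
        refine (gen_derivedSeries (hX.image (QuotientGroup.mk' P)) (closure_quotient P hXt)
          (lt_of_le_of_lt (growth_quotient P hX _) hg) (k + I) ?_ i (by omega)).mono ?_
        · exact le_trans (Nat.mul_le_mul_left _ (Nat.le_add_right _ _)) hR2
        · exact Nat.mul_le_mul_right _ (Nat.pow_le_pow_right (by norm_num) (by omega))
  intro r hr0
  have hst : ∀ j, derivedSeries G (r₀ + j) = derivedSeries G r₀ := by
    intro j
    induction j with
    | zero => rfl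
    | succ j ih =>
      rw [← Nat.add_assoc, derivedSeries_succ, ih, ← derivedSeries_succ]
      exact key.2.1
  have h1 : derivedSeries G r = derivedSeries G r₀ := by
    obtain ⟨j, rfl⟩ := Nat.exists_eq_add_of_le (show r₀ ≤ r by omega)
    exact hst j
  have h2 : derivedSeries G (r + 1) = derivedSeries G r₀ := by
    obtain ⟨j, rfl⟩ := Nat.exists_eq_add_of_le (show r₀ ≤ r by omega)
    exact hst (j + 1)
  refine ⟨?_, ?_, ?_⟩
  · rw [h1]; exact key.1
  · rw [h1, h2]
  · have : ∀ (P Q : Subgroup G) [P.Normal] [Q.Normal], P = Q → VirtNilpotent (G ⧸ Q) →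
        VirtNilpotent (G ⧸ P) := by
      intro P Q _ _ h hv
      subst h
      exact hv
    exact this _ _ h1 key.2.2

end Pool.Agent.Helper63.Gap
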